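import Mathlib

/-!
# MP_7d9a72_al : Jordan algebras with `J^5 = 0` are special

Over a field of characteristic different from `2` and `3` every Jordan algebra `J` with
`J^5 = 0` is special; there is an exceptional Jordan algebra with `J^6 = 0`.

For the first part we let `J` act on `F ⊕ J ⊕ W`, where an element of `W` is a pair
`(δ, m)` with `δ : J → J` and `m : J × J → J`; it plays the role of a skew element `w` of an
associative envelope, `δ` being `[w, ·]` and `m(a, ·)` being `[a ∘ w, ·]`.  The commutator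
`[a, b]` is the pair `(D_{a,b}, M_{a,b})`, where `D_{a,b} = [L_a, L_b]` and `M_{a,b}` is an
explicit Jordan polynomial of degree `4` (up to the factor `4`).
-/

namespace Pool.Agent.Results.MP_7d9a72_al.NilpotencyIndexSix

universe u v

/-- A Jordan algebra over `F`: an `F`-bilinear commutative product on the vector space `J`
which satisfies `(x^2 y) x = x^2 (y x)`. -/
structure IsJordan (F : Type u) [Field F] (J : Type u) [AddCommGroup J] [Module F J]
    (mul : J →ₗ[F] J →ₗ[F] J) : Prop where
  comm : ∀ a b : J, mul a b = mul b a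
  jordan : ∀ a b : J, mul (mul (mul a a) b) a = mul (mul a a) (mul b a)

/-- `(J, mul)` is special: for some associative (not necessarily unital) `F`-algebra `A` there
is an injective linear map `φ : J → A` with `φ (a b) = (1/2) (φ a φ b + φ b φ a)`, i.e. `J` is
isomorphic to a subalgebra of `A⁺`. -/
def IsSpecial (F : Type u) [Field F] (J : Type u) [AddCommGroup J] [Module F J]
    (mul : J →ₗ[F] J →ₗ[F] J) : Prop :=
  ∃ (A : Type v) (_ : NonUnitalRing A) (_ : Module F A) (_ : IsScalarTower F A A)
    (_ : SMulCommClass F A A) (φ : J →ₗ[F] A), Function.Injective φ ∧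
      ∀ a b : J, φ (mul a b) = (2 : F)⁻¹ • (φ a * φ b + φ b * φ a)

/-- `IsProd mul k c`: the element `c` is a product of `k ≥ 1` elements of `J`, in some
arrangement of brackets. -/
inductive IsProd {F : Type u} [Field F] {J : Type u} [AddCommGroup J] [Module F J]
    (mul : J →ₗ[F] J →ₗ[F] J) : ℕ → J → Prop
  | one (a : J) : IsProd mul 1 a
  | mul {i j : ℕ} {a b : J} : IsProd mul i a → IsProd mul j b → IsProd mul (i + j) (mul a b)

/-- `J^k`: the span of all products of `k` elements. -/
def Pow {F : Type u} [Field F] {J : Type u} [AddCommGroup J] [Module F J]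
    (mul : J →ₗ[F] J →ₗ[F] J) (k : ℕ) : Submodule F J :=
  Submodule.span F {c : J | IsProd mul k c}

section five

variable {F : Type u} [Field F] {J : Type u} [AddCommGroup J] [Module F J]
variable (mul : J →ₗ[F] J →ₗ[F] J)

theorem mem_one (a : J) : a ∈ Pow mul 1 := Submodule.subset_span (IsProd.one a)

theorem mul_mem {i j : ℕ} {a b : J} (ha : a ∈ Pow mul i) (hb : b ∈ Pow mul j) :
    mul a b ∈ Pow mul (i + j) := by
  unfold Pow at ha
  induction ha using Submodule.span_induction with
  | mem x hx =>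
    unfold Pow at hb
    induction hb using Submodule.span_induction with
    | mem y hy => exact Submodule.subset_span (IsProd.mul hx hy)
    | zero => rw [map_zero]; exact Submodule.zero_mem _
    | add y z _ _ hy hz => rw [map_add]; exact Submodule.add_mem _ hy hz
    | smul c y _ hy => rw [map_smul]; exact Submodule.smul_mem _ c hy
  | zero => rw [map_zero, LinearMap.zero_apply]; exact Submodule.zero_mem _
  | add y z _ _ hy hz => rw [map_add, LinearMap.add_apply]; exact Submodule.add_mem _ hy hz
  | smul c y _ hy => rw [map_smul, LinearMap.smul_apply]; exact Submodule.smul_mem _ c hy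

theorem isProd_pos {k : ℕ} {c : J} (h : IsProd mul k c) : 1 ≤ k := by
  induction h with
  | one a => exact le_rfl
  | mul _ _ h1 h2 => omega

theorem isProd_pred {n : ℕ} {c : J} (h : IsProd mul n c) :
    ∀ k : ℕ, n = k + 1 → 1 ≤ k → IsProd mul k c := by
  induction h with
  | one a => intro k hk h1; omega
  | @mul i j a b ha hb iha ihb =>
    intro k hk h1
    have hi := isProd_pos mul ha
    have hj := isProd_pos mul hb
    by_cases hi2 : 2 ≤ i
    · have h := IsProd.mul (iha (i - 1) (by omega) (by omega)) hb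
      have e : i - 1 + j = k := by omega
      rw [e] at h
      exact h
    · by_cases hj2 : 2 ≤ j
      · have h := IsProd.mul ha (ihb (j - 1) (by omega) (by omega))
        have e : i + (j - 1) = k := by omega
        rw [e] at h
        exact h
      · have e : k = 1 := by omega
        rw [e]
        exact IsProd.one _

theorem pow_succ_le (k : ℕ) (hk : 1 ≤ k) : Pow mul (k + 1) ≤ Pow mul k :=
  Submodule.span_mono fun _ hc => isProd_pred mul hc k rfl hk

theorem pow_bot (h5 : Pow mul 5 = ⊥) : ∀ k : ℕ, 5 ≤ k → Pow mul k = ⊥ := by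
  intro k hk
  induction k, hk using Nat.le_induction with
  | base => exact h5
  | succ n hn ih => exact le_bot_iff.mp (ih ▸ pow_succ_le mul n (by omega))

theorem zero_of (h5 : Pow mul 5 = ⊥) {k : ℕ} {x : J} (hx : x ∈ Pow mul k) (hk : 5 ≤ k) :
    x = 0 := by
  rw [pow_bot mul h5 k hk] at hx
  exact (Submodule.mem_bot F).mp hx

theorem cast_mem {i j : ℕ} {x : J} (hx : x ∈ Pow mul i) (e : i = j) : x ∈ Pow mul j := e ▸ hx

/-- `a (b c) - b (a c)`, one quarter of the value of `[[a,b],c]`. -/
def Df (a b c : J) : J := mul a (mul b c) - mul b (mul a c)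

/-- `((x y) z) t` -/
def Pf (x y z t : J) : J := mul (mul (mul x y) z) t

/-- one quarter of the value of `[a,b] ∘ [c,d]` -/
def Qf (a b c d : J) : J :=
  (3 : F)⁻¹ • (mul (mul a c) (mul b d) - mul (mul a d) (mul b c)
    - (Pf mul a c b d - Pf mul b c a d - Pf mul a d b c + Pf mul b d a c)
    - (Pf mul a c d b - Pf mul b c d a - Pf mul a d c b + Pf mul b d c a))

/-- one quarter of the value of `[a ∘ [c,d], b]` -/
def Mf (c d a b : J) : J := mul a (Df mul c d b) + Qf mul a b c d

theorem Df_mem {i j k : ℕ} {a b c : J} (ha : a ∈ Pow mul i) (hb : b ∈ Pow mul j)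
    (hc : c ∈ Pow mul k) : Df mul a b c ∈ Pow mul (i + j + k) := by
  refine Submodule.sub_mem _ ?_ ?_
  · exact cast_mem mul (mul_mem mul ha (mul_mem mul hb hc)) (by omega)
  · exact cast_mem mul (mul_mem mul hb (mul_mem mul ha hc)) (by omega)

theorem Pf_mem {n i j k l : ℕ} {x y z t : J} (hx : x ∈ Pow mul i) (hy : y ∈ Pow mul j)
    (hz : z ∈ Pow mul k) (ht : t ∈ Pow mul l) (hn : n = i + j + k + l) :
    Pf mul x y z t ∈ Pow mul n := by
  rw [hn]
  exact mul_mem mul (mul_mem mul (mul_mem mul hx hy) hz) ht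

theorem Qf_mem {i j k l : ℕ} {a b c d : J} (ha : a ∈ Pow mul i) (hb : b ∈ Pow mul j)
    (hc : c ∈ Pow mul k) (hd : d ∈ Pow mul l) : Qf mul a b c d ∈ Pow mul (i + j + k + l) := by
  refine Submodule.smul_mem _ _ (Submodule.sub_mem _ (Submodule.sub_mem _
    (Submodule.sub_mem _ ?_ ?_) (Submodule.add_mem _ (Submodule.sub_mem _
      (Submodule.sub_mem _ ?_ ?_) ?_) ?_)) (Submodule.add_mem _ (Submodule.sub_mem _
      (Submodule.sub_mem _ ?_ ?_) ?_) ?_))
  · exact cast_mem mul (mul_mem mul (mul_mem mul ha hc) (mul_mem mul hb hd)) (by omega)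
  · exact cast_mem mul (mul_mem mul (mul_mem mul ha hd) (mul_mem mul hb hc)) (by omega)
  · exact Pf_mem mul ha hc hb hd (by omega)
  · exact Pf_mem mul hb hc ha hd (by omega)
  · exact Pf_mem mul ha hd hb hc (by omega)
  · exact Pf_mem mul hb hd ha hc (by omega)
  · exact Pf_mem mul ha hc hd hb (by omega)
  · exact Pf_mem mul hb hc hd ha (by omega)
  · exact Pf_mem mul ha hd hc hb (by omega)
  · exact Pf_mem mul hb hd hc ha (by omega)

theorem Mf_mem {i j k l : ℕ} {c d a b : J} (hc : c ∈ Pow mul i) (hd : d ∈ Pow mul j)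
    (ha : a ∈ Pow mul k) (hb : b ∈ Pow mul l) : Mf mul c d a b ∈ Pow mul (i + j + k + l) := by
  refine Submodule.add_mem _ ?_ ?_
  · exact cast_mem mul (mul_mem mul ha (Df_mem mul hc hd hb)) (by omega)
  · exact cast_mem mul (Qf_mem mul ha hb hc hd) (by omega)

end five

section ident

variable {F : Type u} [Field F] {J : Type u} [AddCommGroup J] [Module F J]
variable {mul : J →ₗ[F] J →ₗ[F] J}

theorem lin (h2 : (2 : F) ≠ 0) (hJ : IsJordan F J mul) (x z w y : J) :
    mul (mul (mul x z) y) w + mul (mul (mul z w) y) x + mul (mul (mul x w) y) z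
      - mul (mul x z) (mul y w) - mul (mul z w) (mul y x) - mul (mul x w) (mul y z) = 0 := by
  have h1 := hJ.jordan (x + z + w) y
  have h3 := hJ.jordan (x + z) y
  have h4 := hJ.jordan (x + w) y
  have h5 := hJ.jordan (z + w) y
  have h6 := hJ.jordan x y
  have h7 := hJ.jordan z y
  have h8 := hJ.jordan w y
  have c1 := hJ.comm z x
  have c2 := hJ.comm w x
  have c3 := hJ.comm w z
  simp only [map_add, LinearMap.add_apply, c1, c2, c3] at h1 h3 h4 h5
  have key : (2 : F) • (mul (mul (mul x z) y) w + mul (mul (mul z w) y) x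
      + mul (mul (mul x w) y) z - mul (mul x z) (mul y w) - mul (mul z w) (mul y x)
      - mul (mul x w) (mul y z)) = 0 := by
    linear_combination (norm := module) h1 - h3 - h4 - h5 + h6 + h7 + h8
  exact (smul_eq_zero.mp key).resolve_left h2

theorem Qf_skew1 (hJ : IsJordan F J mul) (a b c d : J) :
    Qf mul a b c d + Qf mul b a c d = 0 := by
  have e : mul (mul b c) (mul a d) = mul (mul a d) (mul b c) := hJ.comm _ _
  have e' : mul (mul b d) (mul a c) = mul (mul a c) (mul b d) := hJ.comm _ _
  unfold Qf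
  rw [e, e']
  module

theorem Qf_skew2 (a b c d : J) :
    Qf mul a b c d + Qf mul a b d c = 0 := by
  unfold Qf
  module

theorem Df_skew (a b c : J) : Df mul a b c + Df mul b a c = 0 := by
  unfold Df
  module

theorem Mf_skew (a b c d : J) : Mf mul a b c d + Mf mul b a c d = 0 := by
  have h1 := Qf_skew2 (mul := mul) c d a b
  have h2 : mul c (Df mul a b d) + mul c (Df mul b a d) = 0 := by
    rw [← map_add, Df_skew, map_zero]
  unfold Mf
  linear_combination (norm := module) h1 + h2

theorem I1 (hJ : IsJordan F J mul) (a b c : J) :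
    mul a (mul b c) + mul b (mul a c) - (Df mul b c a + Df mul a c b)
      = (2 : F) • mul (mul a b) c := by
  have e1 : mul b (mul c a) = mul b (mul a c) := by rw [hJ.comm c a]
  have e2 : mul c (mul b a) = mul (mul a b) c := by rw [hJ.comm b a, hJ.comm c]
  have e3 : mul a (mul c b) = mul a (mul b c) := by rw [hJ.comm c b]
  have e4 : mul c (mul a b) = mul (mul a b) c := hJ.comm _ _
  unfold Df
  rw [e1, e2, e3, e4]
  module

theorem I3 (h2 : (2 : F) ≠ 0) (hJ : IsJordan F J mul) (c d a b : J) :
    Df mul c d (mul a b) = mul a (Df mul c d b) + mul b (Df mul c d a) := by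
  have r1 := lin h2 hJ a b d c
  have r2 := lin h2 hJ a b c d
  unfold Df
  simp only [map_sub]
  simp only [hJ.comm] at r1 r2 ⊢
  linear_combination (norm := module) r2 - r1

theorem I2 (h2 : (2 : F) ≠ 0) (h3 : (3 : F) ≠ 0) (hJ : IsJordan F J mul) (a b c d : J) :
    Df mul a (mul b c) d + Df mul b (mul a c) d + Mf mul b c a d + Mf mul a c b d
      = (2 : F) • Df mul (mul a b) c d := by
  have ra := lin h2 hJ b c d a
  have rb := lin h2 hJ a c d b
  have rc := lin h2 hJ a b d c
  have rd := lin h2 hJ a b c d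
  have key : (3 : F) • (Df mul a (mul b c) d + Df mul b (mul a c) d + Mf mul b c a d
      + Mf mul a c b d - (2 : F) • Df mul (mul a b) c d) = 0 := by
    unfold Mf Qf Df Pf
    simp only [smul_add, smul_sub, smul_smul, map_sub]
    rw [show (3 : F) * (3 : F)⁻¹ = 1 by field_simp]
    simp only [hJ.comm] at ra rb rc rd ⊢
    linear_combination (norm := module) ra + rb - (2 : F) • rc + (4 : F) • rd
  exact sub_eq_zero.mp ((smul_eq_zero.mp key).resolve_left h3)

end ident

section envelope

variable {F : Type u} [Field F] {J : Type u} [AddCommGroup J] [Module F J]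
variable (mul : J →ₗ[F] J →ₗ[F] J)

/-- `Df` as a linear map in the last variable. -/
def Dl (a b : J) : J →ₗ[F] J := (mul a) ∘ₗ (mul b) - (mul b) ∘ₗ (mul a)

theorem Dl_apply (a b c : J) : Dl mul a b c = Df mul a b c := rfl

/-- `Mf` as a bilinear map in the last two variables. -/
def Ml (a b : J) : J →ₗ[F] J →ₗ[F] J :=
  LinearMap.mk₂ F (fun c e => Mf mul a b c e)
    (by intro x y z; simp only [Mf, Qf, Df, Pf, map_add, LinearMap.add_apply]; module)
    (by intro r y z; simp only [Mf, Qf, Df, Pf, map_smul, LinearMap.smul_apply]; module)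
    (by intro x y z; simp only [Mf, Qf, Df, Pf, map_add, map_sub, LinearMap.add_apply]; module)
    (by intro r y z; simp only [Mf, Qf, Df, Pf, map_smul, map_sub, LinearMap.smul_apply]; module)

theorem Ml_apply (a b c e : J) : Ml mul a b c e = Mf mul a b c e := rfl

/-- The space on which `J` is represented. -/
abbrev VV (F : Type u) [Field F] (J : Type u) [AddCommGroup J] [Module F J] : Type u :=
  F × J × (J →ₗ[F] J) × (J →ₗ[F] J →ₗ[F] J)

/-- The operator by which `a ∈ J` acts. -/
def sig (a : J) : VV F J →ₗ[F] VV F J where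
  toFun v := (0, v.1 • a + mul a v.2.1 - v.2.2.1 a, Dl mul a v.2.1 + v.2.2.2 a,
    Ml mul a v.2.1)
  map_add' := by
    intro v w
    refine Prod.ext ?_ (Prod.ext ?_ (Prod.ext ?_ ?_))
    · simp
    · simp only [Prod.fst_add, Prod.snd_add, map_add, LinearMap.add_apply]; module
    · ext e
      simp only [Prod.fst_add, Prod.snd_add, map_add, LinearMap.add_apply, Dl_apply, Df]
      module
    · ext c e
      simp only [Prod.fst_add, Prod.snd_add, map_add, LinearMap.add_apply, Ml_apply, Mf, Qf,
        Df, Pf]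
      simp only [map_sub, map_add]
      module
  map_smul' := by
    intro r v
    refine Prod.ext ?_ (Prod.ext ?_ (Prod.ext ?_ ?_))
    · simp
    · simp only [Prod.smul_fst, Prod.smul_snd, map_smul, LinearMap.smul_apply,
        RingHom.id_apply, smul_eq_mul]
      module
    · ext e
      simp only [Prod.smul_fst, Prod.smul_snd, map_smul, LinearMap.smul_apply,
        RingHom.id_apply, LinearMap.add_apply, Dl_apply, Df]
      module
    · ext c e
      simp only [Prod.smul_fst, Prod.smul_snd, map_smul, LinearMap.smul_apply,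
        RingHom.id_apply, LinearMap.add_apply, Ml_apply, Mf, Qf, Df, Pf]
      simp only [map_sub, map_smul]
      module

/-- The invariant subspace used. -/
def NN : Submodule F (VV F J) where
  carrier := {v | (∀ a b, v.2.2.2 a b + v.2.2.2 b a + mul a (v.2.2.1 b) + mul b (v.2.2.1 a)
      = (2 : F) • v.2.2.1 (mul a b)) ∧ (∀ b, v.2.2.1 b ∈ Pow mul 3) ∧
      (∀ a b, v.2.2.2 a b ∈ Pow mul 4) ∧ (∀ a b c, v.2.2.2 (mul a b) c = 0) ∧
      (∀ a b c, v.2.2.2 a (mul b c) = 0)}
  zero_mem' := by
    refine ⟨?_, ?_, ?_, ?_, ?_⟩ <;> intros <;> simp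
  add_mem' := by
    rintro v w ⟨h1, h2, h3, h4, h5⟩ ⟨g1, g2, g3, g4, g5⟩
    refine ⟨?_, ?_, ?_, ?_, ?_⟩
    · intro a b
      simp only [Prod.fst_add, Prod.snd_add, map_add, LinearMap.add_apply]
      linear_combination (norm := module) h1 a b + g1 a b
    · intro b; exact Submodule.add_mem _ (h2 b) (g2 b)
    · intro a b; exact Submodule.add_mem _ (h3 a b) (g3 a b)
    · intro a b c
      simp only [Prod.snd_add, map_add, LinearMap.add_apply, h4 a b c, g4 a b c, add_zero]
    · intro a b c
      simp only [Prod.snd_add, map_add, LinearMap.add_apply, h5 a b c, g5 a b c, add_zero]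
  smul_mem' := by
    rintro r v ⟨h1, h2, h3, h4, h5⟩
    refine ⟨?_, ?_, ?_, ?_, ?_⟩
    · intro a b
      simp only [Prod.smul_fst, Prod.smul_snd, map_smul, LinearMap.smul_apply]
      linear_combination (norm := module) r • h1 a b
    · intro b; exact Submodule.smul_mem _ r (h2 b)
    · intro a b; exact Submodule.smul_mem _ r (h3 a b)
    · intro a b c
      simp only [Prod.smul_snd, LinearMap.smul_apply, h4 a b c, smul_zero]
    · intro a b c
      simp only [Prod.smul_snd, LinearMap.smul_apply, h5 a b c, smul_zero]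

variable {mul}

theorem sig_mem (h2 : (2 : F) ≠ 0) (hJ : IsJordan F J mul) (h5 : Pow mul 5 = ⊥) (a : J)
    {v : VV F J} (hv : v ∈ NN mul) : sig mul a v ∈ NN mul := by
  obtain ⟨c1, c2, c3, c4, c5⟩ := hv
  have o := mem_one mul
  refine ⟨?_, ?_, ?_, ?_, ?_⟩
  · intro x y
    change Mf mul a v.2.1 x y + Mf mul a v.2.1 y x
      + mul x (Df mul a v.2.1 y + v.2.2.2 a y) + mul y (Df mul a v.2.1 x + v.2.2.2 a x)
      = (2 : F) • (Df mul a v.2.1 (mul x y) + v.2.2.2 a (mul x y))
    have e1 : mul x (v.2.2.2 a y) = 0 := zero_of mul h5 (mul_mem mul (o x) (c3 a y)) (by omega)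
    have e2 : mul y (v.2.2.2 a x) = 0 := zero_of mul h5 (mul_mem mul (o y) (c3 a x)) (by omega)
    have i3 := I3 h2 hJ a v.2.1 x y
    have i4 := Qf_skew1 hJ x y a v.2.1
    rw [map_add, map_add, e1, e2, c5, add_zero, add_zero, add_zero]
    unfold Mf
    linear_combination (norm := module) i4 - (2 : F) • i3
  · intro b
    change Df mul a v.2.1 b + v.2.2.2 a b ∈ Pow mul 3
    have t1 : Df mul a v.2.1 b ∈ Pow mul 3 :=
      cast_mem mul (Df_mem mul (o a) (o v.2.1) (o b)) (by norm_num)
    have t2 : v.2.2.2 a b ∈ Pow mul (3 + 1) := cast_mem mul (c3 a b) (by norm_num)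
    exact Submodule.add_mem _ t1 (pow_succ_le mul 3 (by norm_num) t2)
  · intro x y
    have t : Mf mul a v.2.1 x y ∈ Pow mul 4 :=
      cast_mem mul (Mf_mem mul (o a) (o v.2.1) (o x) (o y)) (by norm_num)
    exact t
  · intro x y z
    have t := Mf_mem mul (o a) (o v.2.1) (mul_mem mul (o x) (o y)) (o z)
    change Mf mul a v.2.1 (mul x y) z = 0
    exact zero_of mul h5 t (by omega)
  · intro x y z
    have t := Mf_mem mul (o a) (o v.2.1) (o x) (mul_mem mul (o y) (o z))
    change Mf mul a v.2.1 x (mul y z) = 0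
    exact zero_of mul h5 t (by omega)

theorem sig_rel (h2 : (2 : F) ≠ 0) (h3 : (3 : F) ≠ 0) (hJ : IsJordan F J mul)
    (h5 : Pow mul 5 = ⊥) (a b : J) {v : VV F J} (hv : v ∈ NN mul) :
    sig mul a (sig mul b v) + sig mul b (sig mul a v) = (2 : F) • sig mul (mul a b) v := by
  obtain ⟨c1, c2, c3, c4, c5⟩ := hv
  have o := mem_one mul
  obtain ⟨l, x, δ, m⟩ := v
  simp only at c1 c2 c3 c4 c5
  refine Prod.ext ?_ (Prod.ext ?_ (Prod.ext ?_ ?_))
  · change (0 : F) + 0 = (2 : F) • (0 : F)
    simp
  · change ((0 : F) • a + mul a (l • b + mul b x - δ b) - (Df mul b x a + m b a))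
      + ((0 : F) • b + mul b (l • a + mul a x - δ a) - (Df mul a x b + m a b))
      = (2 : F) • (l • mul a b + mul (mul a b) x - δ (mul a b))
    have i1 := I1 hJ a b x
    have k := c1 a b
    have hc := hJ.comm b a
    simp only [map_sub, map_add, map_smul, hc]
    linear_combination (norm := module) i1 - k
  · ext e
    change (Df mul a (l • b + mul b x - δ b) e + Mf mul b x a e)
      + (Df mul b (l • a + mul a x - δ a) e + Mf mul a x b e)
      = (2 : F) • (Df mul (mul a b) x e + m (mul a b) e)
    have i2 := I2 h2 h3 hJ a b x e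
    have s := Df_skew (mul := mul) a b e
    have z1 : Df mul a (δ b) e = 0 :=
      zero_of mul h5 (Df_mem mul (o a) (c2 b) (o e)) (by omega)
    have z2 : Df mul b (δ a) e = 0 :=
      zero_of mul h5 (Df_mem mul (o b) (c2 a) (o e)) (by omega)
    have t1 : Df mul a (l • b + mul b x - δ b) e
        = l • Df mul a b e + Df mul a (mul b x) e - Df mul a (δ b) e := by
      simp only [Df, map_sub, map_add, map_smul, LinearMap.sub_apply, LinearMap.add_apply,
        LinearMap.smul_apply]
      module
    have t2 : Df mul b (l • a + mul a x - δ a) e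
        = l • Df mul b a e + Df mul b (mul a x) e - Df mul b (δ a) e := by
      simp only [Df, map_sub, map_add, map_smul, LinearMap.sub_apply, LinearMap.add_apply,
        LinearMap.smul_apply]
      module
    rw [t1, t2, z1, z2, c4]
    linear_combination (norm := module) i2 + l • s
  · ext c e
    change Mf mul a (l • b + mul b x - δ b) c e + Mf mul b (l • a + mul a x - δ a) c e
      = (2 : F) • Mf mul (mul a b) x c e
    have s := Mf_skew (mul := mul) a b c e
    have z1 : Mf mul a (δ b) c e = 0 :=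
      zero_of mul h5 (Mf_mem mul (o a) (c2 b) (o c) (o e)) (by omega)
    have z2 : Mf mul b (δ a) c e = 0 :=
      zero_of mul h5 (Mf_mem mul (o b) (c2 a) (o c) (o e)) (by omega)
    have z3 : Mf mul a (mul b x) c e = 0 :=
      zero_of mul h5 (Mf_mem mul (o a) (mul_mem mul (o b) (o x)) (o c) (o e)) (by omega)
    have z4 : Mf mul b (mul a x) c e = 0 :=
      zero_of mul h5 (Mf_mem mul (o b) (mul_mem mul (o a) (o x)) (o c) (o e)) (by omega)
    have z5 : Mf mul (mul a b) x c e = 0 :=
      zero_of mul h5 (Mf_mem mul (mul_mem mul (o a) (o b)) (o x) (o c) (o e)) (by omega)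
    have t : ∀ a b y w : J, Mf mul a (l • b + y - w) c e
        = l • Mf mul a b c e + Mf mul a y c e - Mf mul a w c e := by
      intro a b y w
      simp only [Mf, Qf, Df, Pf, map_sub, map_add, map_smul, LinearMap.sub_apply,
        LinearMap.add_apply, LinearMap.smul_apply]
      module
    rw [t, t, z1, z2, z3, z4, z5]
    linear_combination (norm := module) l • s

/-- A faithful representation, up to one half, gives speciality. -/
theorem special_of_rep (h2 : (2 : F) ≠ 0) {V : Type u} [AddCommGroup V] [Module F V]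
    (N : Submodule F V) (s : J → V →ₗ[F] V)
    (hadd : ∀ a b v, s (a + b) v = s a v + s b v)
    (hsmul : ∀ (r : F) a v, s (r • a) v = r • s a v)
    (hmem : ∀ a v, v ∈ N → s a v ∈ N)
    (hrel : ∀ a b v, v ∈ N → s a (s b v) + s b (s a v) = (2 : F) • s (mul a b) v)
    (hinj : ∀ a, (∀ v ∈ N, s a v = 0) → a = 0) : IsSpecial.{u, u} F J mul := by
  let φ : J →ₗ[F] Module.End F N :=
    { toFun := fun a => (s a).restrict (fun v hv => hmem a v hv)
      map_add' := by
        intro a b
        exact LinearMap.ext fun v => Subtype.ext (hadd a b v.1)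
      map_smul' := by
        intro r a
        exact LinearMap.ext fun v => Subtype.ext (hsmul r a v.1) }
  refine ⟨Module.End F N, (inferInstance : Ring (Module.End F N)).toNonUnitalRing,
    inferInstance, inferInstance, inferInstance, φ, ?_, ?_⟩
  · rw [injective_iff_map_eq_zero]
    intro a ha
    refine hinj a fun v hv => ?_
    exact congrArg (fun g : Module.End F N => (g ⟨v, hv⟩).1) ha
  · intro a b
    have key : φ a * φ b + φ b * φ a = (2 : F) • φ (mul a b) := by
      refine LinearMap.ext fun v => Subtype.ext ?_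
      exact hrel a b v.1 v.2
    rw [key, smul_smul, inv_mul_cancel₀ h2, one_smul]

theorem sig_add (a b : J) (v : VV F J) : sig mul (a + b) v = sig mul a v + sig mul b v := by
  refine Prod.ext ?_ (Prod.ext ?_ (Prod.ext ?_ ?_))
  · change (0 : F) = 0 + 0
    simp
  · change v.1 • (a + b) + mul (a + b) v.2.1 - v.2.2.1 (a + b)
      = (v.1 • a + mul a v.2.1 - v.2.2.1 a) + (v.1 • b + mul b v.2.1 - v.2.2.1 b)
    simp only [map_add, LinearMap.add_apply]
    module
  · ext e
    change Df mul (a + b) v.2.1 e + v.2.2.2 (a + b) e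
      = (Df mul a v.2.1 e + v.2.2.2 a e) + (Df mul b v.2.1 e + v.2.2.2 b e)
    simp only [Df, map_add, LinearMap.add_apply]
    module
  · ext c e
    change Mf mul (a + b) v.2.1 c e = Mf mul a v.2.1 c e + Mf mul b v.2.1 c e
    simp only [Mf, Qf, Df, Pf, map_add, map_sub, LinearMap.add_apply]
    module

theorem sig_smul (r : F) (a : J) (v : VV F J) : sig mul (r • a) v = r • sig mul a v := by
  refine Prod.ext ?_ (Prod.ext ?_ (Prod.ext ?_ ?_))
  · change (0 : F) = r • 0
    simp
  · change v.1 • (r • a) + mul (r • a) v.2.1 - v.2.2.1 (r • a)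
      = r • (v.1 • a + mul a v.2.1 - v.2.2.1 a)
    simp only [map_smul, LinearMap.smul_apply]
    module
  · ext e
    change Df mul (r • a) v.2.1 e + v.2.2.2 (r • a) e = r • (Df mul a v.2.1 e + v.2.2.2 a e)
    simp only [Df, map_smul, LinearMap.smul_apply]
    module
  · ext c e
    change Mf mul (r • a) v.2.1 c e = r • Mf mul a v.2.1 c e
    simp only [Mf, Qf, Df, Pf, map_smul, map_sub, LinearMap.smul_apply]
    module

/-- Every Jordan algebra with `J^5 = 0` over a field of characteristic not `2`, `3` is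
special. -/
theorem special_of_pow_five (h2 : (2 : F) ≠ 0) (h3 : (3 : F) ≠ 0) (hJ : IsJordan F J mul)
    (h5 : Pow mul 5 = ⊥) : IsSpecial.{u, u} F J mul := by
  refine special_of_rep h2 (V := VV F J) (NN mul) (sig mul) sig_add sig_smul
    (fun a v hv => sig_mem h2 hJ h5 a hv) (fun a b v hv => sig_rel h2 h3 hJ h5 a b hv) ?_
  intro a ha
  have hmem : ((1, 0, 0, 0) : VV F J) ∈ NN mul := by
    refine ⟨?_, ?_, ?_, ?_, ?_⟩ <;> intros <;> simp
  have h := congrArg (fun g : VV F J => g.2.1) (ha _ hmem)
  change (1 : F) • a + mul a 0 - (0 : J →ₗ[F] J) a = 0 at h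
  simpa using h

end envelope

section construction

variable {F : Type u} [Field F]

/-- the product in coordinates -/
def pr (a b : Fin 12 → F) : Fin 12 → F :=
  ![0, 0, 0,
    a 0 * b 0,
    a 1 * b 1,
    a 1 * b 2 + a 2 * b 1,
    a 0 * b 4 + a 4 * b 0,
    a 1 * b 3 + a 3 * b 1,
    a 2 * b 3 + a 3 * b 2,
    a 0 * b 5 + a 5 * b 0,
    2 * (a 2 * b 6 + a 6 * b 2) - (a 1 * b 9 + a 9 * b 1),
    a 0 * b 10 + a 10 * b 0 + 2 * (a 5 * b 7 + a 7 * b 5) - 4 * (a 4 * b 8 + a 8 * b 4)]

/-- the product as a bilinear map -/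
def mulL : (Fin 12 → F) →ₗ[F] (Fin 12 → F) →ₗ[F] (Fin 12 → F) :=
  LinearMap.mk₂ F pr
    (by intro a b c; funext i; fin_cases i <;> simp [pr] <;> ring)
    (by intro k a b; funext i; fin_cases i <;> simp [pr] <;> ring)
    (by intro a b c; funext i; fin_cases i <;> simp [pr] <;> ring)
    (by intro k a b; funext i; fin_cases i <;> simp [pr] <;> ring)

theorem mulL_apply (a b : Fin 12 → F) : mulL a b = pr a b := rfl

theorem isJordan : IsJordan F (Fin 12 → F) mulL where
  comm a b := by
    simp only [mulL_apply]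
    funext i; fin_cases i <;> simp [pr] <;> ring
  jordan a b := by
    simp only [mulL_apply]
    funext i; fin_cases i <;> simp [pr] <;> ring

/-- weights of the basis vectors -/
def wt : Fin 12 → ℕ := ![1, 1, 1, 2, 2, 2, 3, 3, 3, 3, 4, 5]

theorem term_zero {a b : Fin 12 → F} {p q : ℕ} (ha : ∀ i, wt i < p → a i = 0)
    (hb : ∀ i, wt i < q → b i = 0) (i j : Fin 12) (h : wt i + wt j < p + q) :
    a i * b j = 0 := by
  rcases lt_or_ge (wt i) p with h1 | h1
  · rw [ha i h1, zero_mul]
  · rw [hb j (by omega), mul_zero]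

theorem wt_mul {a b : Fin 12 → F} {p q : ℕ} (ha : ∀ i, wt i < p → a i = 0)
    (hb : ∀ i, wt i < q → b i = 0) : ∀ i, wt i < p + q → pr a b i = 0 := by
  intro i hi
  have T := fun i j => term_zero ha hb i j
  fin_cases i
  · simp [pr]
  · simp [pr]
  · simp [pr]
  · have h1 := T 0 0 (by simpa [wt] using hi)
    simp [pr, h1]
  · have h1 := T 1 1 (by simpa [wt] using hi)
    simp [pr, h1]
  · have h1 := T 1 2 (by simpa [wt] using hi)
    have h2 := T 2 1 (by simpa [wt] using hi)
    simp [pr, h1, h2]
  · have h1 := T 0 4 (by simpa [wt] using hi)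
    have h2 := T 4 0 (by simpa [wt] using hi)
    simp [pr, h1, h2]
  · have h1 := T 1 3 (by simpa [wt] using hi)
    have h2 := T 3 1 (by simpa [wt] using hi)
    simp [pr, h1, h2]
  · have h1 := T 2 3 (by simpa [wt] using hi)
    have h2 := T 3 2 (by simpa [wt] using hi)
    simp [pr, h1, h2]
  · have h1 := T 0 5 (by simpa [wt] using hi)
    have h2 := T 5 0 (by simpa [wt] using hi)
    simp [pr, h1, h2]
  · have h1 := T 2 6 (by simpa [wt] using hi)
    have h2 := T 6 2 (by simpa [wt] using hi)
    have h3 := T 1 9 (by simpa [wt] using hi)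
    have h4 := T 9 1 (by simpa [wt] using hi)
    simp [pr, h1, h2, h3, h4]
  · have h1 := T 0 10 (by simpa [wt] using hi)
    have h2 := T 10 0 (by simpa [wt] using hi)
    have h3 := T 5 7 (by simpa [wt] using hi)
    have h4 := T 7 5 (by simpa [wt] using hi)
    have h5 := T 4 8 (by simpa [wt] using hi)
    have h6 := T 8 4 (by simpa [wt] using hi)
    simp [pr, h1, h2, h3, h4, h5, h6]

theorem wt_prod {k : ℕ} {c : Fin 12 → F} (h : IsProd mulL k c) : ∀ i, wt i < k → c i = 0 := by
  induction h with
  | one a => intro i hi; exfalso; revert hi; fin_cases i <;> simp [wt]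
  | mul _ _ iha ihb => exact wt_mul iha ihb

theorem pow_six : Pow (mulL (F := F)) 6 = ⊥ := by
  unfold Pow
  rw [Submodule.span_eq_bot]
  intro c hc
  funext i
  refine wt_prod hc i ?_
  fin_cases i <;> simp [wt]

/-- basis vectors -/
def e (i : Fin 12) : Fin 12 → F := Pi.single i 1

theorem exceptional (h2 : (2 : F) ≠ 0) : ¬ IsSpecial.{u, v} F (Fin 12 → F) mulL := by
  rintro ⟨A, _, _, _, _, φ, hinj, hφ⟩
  set X := φ (e 0) with hX
  set Y := φ (e 1) with hY
  set Z := φ (e 2) with hZ
  -- the relevant products in J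
  have hxy : mulL (e 0) (e 1) = (0 : Fin 12 → F) := by
    rw [mulL_apply]; funext i; fin_cases i <;> simp [pr, e]
  have hxx : mulL (e 0) (e 0) = (e 3 : Fin 12 → F) := by
    rw [mulL_apply]; funext i; fin_cases i <;> simp [pr, e]
  have hyt : mulL (e 1) (e 3) = (e 7 : Fin 12 → F) := by
    rw [mulL_apply]; funext i; fin_cases i <;> simp [pr, e]
  have hyr : mulL (e 1) (e 7) = (0 : Fin 12 → F) := by
    rw [mulL_apply]; funext i; fin_cases i <;> simp [pr, e]
  have hzr : mulL (e 2) (e 7) = (0 : Fin 12 → F) := by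
    rw [mulL_apply]; funext i; fin_cases i <;> simp [pr, e]
  have hyz : mulL (e 1) (e 2) = (e 5 : Fin 12 → F) := by
    rw [mulL_apply]; funext i; fin_cases i <;> simp [pr, e]
  have hwr : mulL (e 5) (e 7) = ((2 : F) • e 11 : Fin 12 → F) := by
    rw [mulL_apply]; funext i; fin_cases i <;> simp [pr, e]
  have hinv : (2 : F)⁻¹ ≠ 0 := inv_ne_zero h2
  have half : ∀ a : A, (2 : F)⁻¹ • (a + a) = a := fun a => by
    rw [← two_smul F a, smul_smul, inv_mul_cancel₀ h2, one_smul]
  have dbl : ∀ a : A, a + a = 0 → a = 0 := fun a ha => by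
    rw [← half a, ha, smul_zero]
  -- x y = 0
  have hXY : X * Y = -(Y * X) := by
    have h := hφ (e 0) (e 1)
    rw [hxy, map_zero] at h
    have h' := (smul_eq_zero.mp h.symm).resolve_left hinv
    exact eq_neg_of_add_eq_zero_left h'
  -- t = x x
  have hT : φ (e 3) = X * X := by
    rw [← hxx, hφ, half]
  have hTY : X * X * Y = Y * (X * X) := by
    rw [mul_assoc, hXY, mul_neg, ← mul_assoc, hXY, neg_mul, neg_neg, mul_assoc]
  -- r = y t
  set R := φ (e 7) with hR
  have hRval : R = Y * (X * X) := by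
    rw [hR, ← hyt, hφ, hT, hTY, half]
  have hYR : Y * R = R * Y := by
    rw [hRval, mul_assoc Y (X * X) Y, hTY]
  have hYR0 : Y * R = 0 := by
    have h := hφ (e 1) (e 7)
    rw [hyr, map_zero] at h
    have h' := (smul_eq_zero.mp h.symm).resolve_left hinv
    refine dbl _ ?_
    calc Y * R + Y * R = Y * R + R * Y := by rw [← hYR]
      _ = 0 := h'
  have hRY0 : R * Y = 0 := by rw [← hYR, hYR0]
  have hZR : Z * R = -(R * Z) := by
    have h := hφ (e 2) (e 7)
    rw [hzr, map_zero] at h
    have h' := (smul_eq_zero.mp h.symm).resolve_left hinv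
    exact eq_neg_of_add_eq_zero_left h'
  have hRZ : R * Z = -(Z * R) := by rw [hZR, neg_neg]
  have hW : φ (e 5) = (2 : F)⁻¹ • (Y * Z + Z * Y) := by rw [← hyz, hφ]
  have h1 : (Y * Z + Z * Y) * R = 0 := by
    rw [add_mul, mul_assoc, mul_assoc, hYR0, mul_zero, add_zero, hZR, mul_neg, ← mul_assoc,
      hYR0, zero_mul, neg_zero]
  have h3 : R * (Y * Z + Z * Y) = 0 := by
    rw [mul_add, ← mul_assoc, ← mul_assoc, hRY0, zero_mul, zero_add, hRZ, neg_mul, mul_assoc,
      hRY0, mul_zero, neg_zero]
  have hs : φ ((2 : F) • e 11) = 0 := by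
    rw [← hwr, hφ, hW, smul_mul_assoc, mul_smul_comm, h1, h3]
    simp
  have hs' : ((2 : F) • e 11 : Fin 12 → F) = 0 := hinj (by rw [hs, map_zero])
  have := congrFun hs' 11
  simp [e] at this
  exact h2 this

end construction

/-- Over every field `F` of characteristic not `2`, `3`: every Jordan algebra with `J^5 = 0` is
special, and there is a non-special Jordan algebra (of dimension `12`) with `J^6 = 0`. -/
theorem result (F : Type u) [Field F] (h2 : (2 : F) ≠ 0) (h3 : (3 : F) ≠ 0) :
    (∀ (J : Type u) [AddCommGroup J] [Module F J] (mul : J →ₗ[F] J →ₗ[F] J),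
      IsJordan F J mul → Pow mul 5 = ⊥ → IsSpecial.{u, u} F J mul) ∧
    (∃ (J : Type u) (_ : AddCommGroup J) (_ : Module F J) (mul : J →ₗ[F] J →ₗ[F] J),
      Module.finrank F J = 12 ∧ IsJordan F J mul ∧ Pow mul 6 = ⊥ ∧
        ¬ IsSpecial.{u, v} F J mul) :=
  ⟨fun _ _ _ _ hJ h5 => special_of_pow_five h2 h3 hJ h5,
    ⟨Fin 12 → F, inferInstance, inferInstance, mulL, by simp, isJordan, pow_six,
      exceptional h2⟩⟩

end Pool.Agent.Results.MP_7d9a72_al.NilpotencyIndexSix
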